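import Mathlib

/-! Krull intersection and lifting of central idempotents -/

namespace Pool.Agent.H8.Bock

section Krull

variable {W : Type*} [CommRing W] [IsNoetherianRing W] [IsLocalRing W] {p : W}

theorem eq_zero_of_forall_pow (hp : p ∈ IsLocalRing.maximalIdeal W) {M : Type*} [AddCommGroup M]
    [Module W M] [Module.Finite W M] (x : M) (hx : ∀ n : ℕ, ∃ y : M, x = p ^ n • y) : x = 0 := by
  have h := Ideal.iInf_pow_smul_eq_bot_of_isLocalRing (R := W) (M := M)
    (IsLocalRing.maximalIdeal W) (Ideal.IsPrime.ne_top inferInstance)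
  have hx' : x ∈ (⨅ i : ℕ, IsLocalRing.maximalIdeal W ^ i • (⊤ : Submodule W M)) := by
    rw [Submodule.mem_iInf]
    intro n
    obtain ⟨y, rfl⟩ := hx n
    exact Submodule.smul_mem_smul (Ideal.pow_mem_pow hp n) trivial
  rw [h] at hx'
  simpa using hx'

theorem mem_of_forall_pow (hp : p ∈ IsLocalRing.maximalIdeal W) {M : Type*} [AddCommGroup M]
    [Module W M] [Module.Finite W M] (N : Submodule W M) (x : M)
    (hx : ∀ n : ℕ, ∃ m ∈ N, ∃ y : M, x = m + p ^ n • y) : x ∈ N := by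
  rw [← Submodule.Quotient.mk_eq_zero]
  refine eq_zero_of_forall_pow hp (M := M ⧸ N) _ ?_
  intro n
  obtain ⟨m, hm, y, rfl⟩ := hx n
  refine ⟨Submodule.Quotient.mk y, ?_⟩
  rw [Submodule.Quotient.mk_add, (Submodule.Quotient.mk_eq_zero N).2 hm, zero_add,
    Submodule.Quotient.mk_smul]

end Krull

section Lift

variable {W : Type*} [CommRing W]

theorem pow_of_eq_one_add {E : Type*} [Ring E] [Algebra W E] {a : W} {x : E}
    (hx : ∃ y : E, x = 1 + a • y) (m : ℕ) : ∃ y : E, x ^ m = 1 + a • y := by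
  induction m with
  | zero => exact ⟨0, by simp⟩
  | succ m ih =>
    obtain ⟨y, rfl⟩ := hx
    obtain ⟨z, hz⟩ := ih
    refine ⟨y + z + a • (z * y), ?_⟩
    rw [pow_succ, hz]
    simp only [mul_add, add_mul, mul_one, one_mul, smul_add, smul_mul_smul_comm, smul_smul]
    abel

/-- If a subalgebra of a product of two finite algebras over a Noetherian local ring contains an
element congruent to the idempotent `(1, 0)` modulo `p`, then it contains `(1, 0)`. -/
theorem idem_mem [IsNoetherianRing W] [IsLocalRing W] {p : W}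
    (hp : p ∈ IsLocalRing.maximalIdeal W) {E₀ E₁ : Type*} [Ring E₀] [Algebra W E₀]
    [Ring E₁] [Algebra W E₁] [Module.Finite W E₀] [Module.Finite W E₁]
    (N : Subalgebra W (E₀ × E₁)) (x : E₀ × E₁) (hx : x ∈ N)
    (h₀ : ∃ a : E₀, x.1 = 1 + p • a) (h₁ : ∃ b : E₁, x.2 = p • b) :
    ((1, 0) : E₀ × E₁) ∈ N := by
  rw [← Subalgebra.mem_toSubmodule]
  refine mem_of_forall_pow hp (Subalgebra.toSubmodule N) _ ?_
  intro n
  refine ⟨1 - (1 - x ^ n) ^ n, ?_, ?_⟩
  · rw [Subalgebra.mem_toSubmodule]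
    exact N.sub_mem N.one_mem (N.pow_mem (N.sub_mem N.one_mem (N.pow_mem hx n)) n)
  · obtain ⟨a, ha⟩ := pow_of_eq_one_add h₀ n
    obtain ⟨b, hb⟩ := h₁
    obtain ⟨c, hc⟩ : ∃ c : E₁, (1 - x.2 ^ n) ^ n = 1 + p ^ n • c := by
      refine pow_of_eq_one_add ⟨-(b ^ n), ?_⟩ n
      rw [hb, smul_pow, smul_neg, sub_eq_add_neg]
    refine ⟨((-a) ^ n, c), ?_⟩
    ext
    · simp only [Prod.fst_add, Prod.fst_sub, Prod.pow_fst, Prod.fst_one, Prod.smul_fst]
      rw [ha, ← smul_pow, smul_neg]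
      have : (1 : E₀) - (1 + p • a) = -(p • a) := by abel
      rw [this]
      abel
    · simp only [Prod.snd_add, Prod.snd_sub, Prod.pow_snd, Prod.snd_one, Prod.smul_snd]
      rw [hc]
      abel

end Lift

end Pool.Agent.H8.Bock
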