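import Mathlib

/-! Two-periodic Bockstein sequences of functors and algebraic projectors -/

open CategoryTheory

namespace Pool.Agent.H8.Bock

universe w v u

section Seq

variable {W k : Type w} [CommRing W] [Field k] [Algebra W k] {C : Type u} [Category.{v} C]

/-- A functor to `k`-vector spaces, regarded as a functor to `W`-modules. -/
noncomputable def res (W : Type w) {k : Type w} [CommRing W] [Field k] [Algebra W k]
    {C : Type u} [Category.{v} C] (G : C ⥤ ModuleCat.{w} k) : C ⥤ ModuleCat.{w} W :=
  G ⋙ ModuleCat.restrictScalars (algebraMap W k)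

/-- Multiplication by `p` on a functor to `W`-modules. -/
noncomputable def mulBy (p : W) (G : C ⥤ ModuleCat.{w} W) : G ⟶ G where
  app A := ModuleCat.ofHom (p • LinearMap.id)
  naturality A B f := by
    ext x
    simp

/-- Exactness of the sequence `G₁ → G₂ → G₃` of functors to `W`-modules at `G₂`. -/
def ExactAt {G₁ G₂ G₃ : C ⥤ ModuleCat.{w} W} (a : G₁ ⟶ G₂) (b : G₂ ⟶ G₃) : Prop :=
  ∀ A : C, Function.Exact (a.app A).hom (b.app A).hom

end Seq

/-- A Bockstein pair over `W`, `k`, `p` on a category `C`: functors `T 0`, `T 1` from `C` to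
`W`-modules, functors `H 0`, `H 1` from `C` to `k`-vector spaces, and natural `W`-linear maps
`red i : T i → H i` and `bock i : H i → T (i + 1)` for which the two-periodic sequence
`T i → T i → H i → T (i + 1) → T (i + 1)`, with maps `p`, `red i`, `bock i` and `p`, is exact. -/
structure BocksteinPair (W k : Type w) [CommRing W] [Field k] [Algebra W k] (p : W)
    (C : Type u) [Category.{v} C] where
  /-- the functors to `W`-modules -/
  T : ZMod 2 → C ⥤ ModuleCat.{w} W
  /-- the functors to `k`-vector spaces -/
  H : ZMod 2 → C ⥤ ModuleCat.{w} k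
  /-- the reduction maps -/
  red : ∀ i, T i ⟶ res W (H i)
  /-- the Bockstein maps -/
  bock : ∀ i, res W (H i) ⟶ T (i + 1)
  exact_mul_red : ∀ i, ExactAt (mulBy p (T i)) (red i)
  exact_red_bock : ∀ i, ExactAt (red i) (bock i)
  exact_bock_mul : ∀ i, ExactAt (bock i) (mulBy p (T (i + 1)))

namespace BocksteinPair

variable {W k : Type w} [CommRing W] [Field k] [Algebra W k] {p : W}
  {C : Type u} [Category.{v} C] (R : BocksteinPair W k p C)

/-- The action of an endomorphism `f` of `A` on `T i A`. -/
noncomputable def actT (i : ZMod 2) (A : C) (f : A ⟶ A) : Module.End W ((R.T i).obj A) :=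
  ((R.T i).map f).hom

/-- The action of an endomorphism `f` of `A` on `H i A`. -/
noncomputable def actH (i : ZMod 2) (A : C) (f : A ⟶ A) : Module.End k ((R.H i).obj A) :=
  ((R.H i).map f).hom

/-- The projector of `T A` on its part `T e A` is algebraic: it is a linear combination, with
coefficients in `W`, of actions of endomorphisms of `A`. -/
def AlgT (A : C) (e : ZMod 2) : Prop :=
  ∃ (n : ℕ) (c : Fin n → W) (f : Fin n → (A ⟶ A)), ∀ i, ∀ x : (R.T i).obj A,
    ∑ j, c j • R.actT i A (f j) x = if i = e then x else 0

/-- The projector of `F ⊗ H A` on its part `F ⊗ H e A`, for an extension `F` of `k`, is algebraic: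
it is a linear combination, with coefficients in `F`, of actions of endomorphisms of `A`. -/
def AlgHExt (F : Type*) [Field F] [Algebra k F] (A : C) (e : ZMod 2) : Prop :=
  ∃ (n : ℕ) (c : Fin n → F) (f : Fin n → (A ⟶ A)), ∀ i,
    ∀ x : TensorProduct k F ((R.H i).obj A),
      ∑ j, c j • (R.actH i A (f j)).baseChange F x = if i = e then x else 0

/-- The projector of `H A` on its part `H e A` is algebraic over the subfield `F` of `k`: it is a
linear combination, with coefficients in `F`, of actions of endomorphisms of `A`. -/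
def AlgHSub (F : Subfield k) (A : C) (e : ZMod 2) : Prop :=
  ∃ (n : ℕ) (c : Fin n → k) (f : Fin n → (A ⟶ A)), (∀ j, c j ∈ F) ∧
    ∀ i, ∀ x : (R.H i).obj A, ∑ j, c j • R.actH i A (f j) x = if i = e then x else 0

/-- `T A` has no `p`-torsion: neither `T 0 A` nor `T 1 A` has a nonzero element killed by `p`. -/
def TorsionFree (A : C) : Prop :=
  ∀ i, ∀ x : (R.T i).obj A, p • x = 0 → x = 0

end BocksteinPair

end Pool.Agent.H8.Bock
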