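import Pool.Agent.H8.Bock.Main

open CategoryTheory

namespace Pool.Agent.H8.Bock

universe w v u

namespace BocksteinPair

variable {W k : Type w} [CommRing W] [Field k] [Algebra W k] {p : W}
  {C : Type u} [Category.{v} C] (R : BocksteinPair W k p C)

/-- The projector of `H A` on `H e A` is a `k`-linear combination of actions. -/
def AlgH (A : C) (e : ZMod 2) : Prop :=
  ∃ (n : ℕ) (c : Fin n → k) (f : Fin n → (A ⟶ A)), ∀ i, ∀ x : (R.H i).obj A,
    ∑ j, c j • R.actH i A (f j) x = if i = e then x else 0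

theorem actH_id (i : ZMod 2) (A : C) (x : (R.H i).obj A) : R.actH i A (𝟙 A) x = x := by
  simp [actH]

theorem actT_id (i : ZMod 2) (A : C) (x : (R.T i).obj A) : R.actT i A (𝟙 A) x = x := by
  simp [actT]

theorem ite_swap {M : Type*} [AddCommGroup M] (i e : ZMod 2) (x : M) :
    x - (if i = e then x else 0) = if i = e + 1 then x else 0 := by
  rcases zmod2_cases i with rfl | rfl <;> rcases zmod2_cases e with rfl | rfl <;>
    simp [show (1 : ZMod 2) + 1 = 0 from rfl]

theorem algH_swap (A : C) (e : ZMod 2) (h : R.AlgH A e) : R.AlgH A (e + 1) := by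
  obtain ⟨n, c, f, h⟩ := h
  refine ⟨n + 1, Fin.cons 1 (fun j => - c j), Fin.cons (𝟙 A) f, ?_⟩
  intro i x
  rw [Fin.sum_univ_succ]
  simp only [Fin.cons_zero, Fin.cons_succ, one_smul, neg_smul, Finset.sum_neg_distrib, actH_id, h]
  rw [← sub_eq_add_neg, ite_swap]

theorem algT_swap (A : C) (e : ZMod 2) (h : R.AlgT A e) : R.AlgT A (e + 1) := by
  obtain ⟨n, c, f, h⟩ := h
  refine ⟨n + 1, Fin.cons 1 (fun j => - c j), Fin.cons (𝟙 A) f, ?_⟩
  intro i x
  rw [Fin.sum_univ_succ]
  simp only [Fin.cons_zero, Fin.cons_succ, one_smul, neg_smul, Finset.sum_neg_distrib, actT_id, h]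
  rw [← sub_eq_add_neg, ite_swap]

theorem algH_zero_of (A : C) (e : ZMod 2) (h : R.AlgH A e) : R.AlgH A 0 := by
  rcases zmod2_cases e with rfl | rfl
  · exact h
  · exact R.algH_swap A 1 h

theorem algH_of_zero (A : C) (e : ZMod 2) (h : R.AlgH A 0) : R.AlgH A e := by
  rcases zmod2_cases e with rfl | rfl
  · exact h
  · exact R.algH_swap A 0 h

theorem algT_of_zero (A : C) (e : ZMod 2) (h : R.AlgT A 0) : R.AlgT A e := by
  rcases zmod2_cases e with rfl | rfl
  · exact h
  · exact R.algT_swap A 0 h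

/-- Independence of the extension of coefficients. -/
theorem algHExt_iff (F : Type*) [Field F] [Algebra k F] (A : C) (e : ZMod 2) :
    R.AlgHExt F A e ↔ R.AlgH A e := by
  constructor
  · rintro ⟨n, c, f, h⟩
    obtain ⟨φ, hφ⟩ : ∃ φ : F →ₗ[k] k, φ 1 = 1 := by
      obtain ⟨φ, hφ⟩ := (Algebra.linearMap k F).exists_leftInverse_of_injective
        (LinearMap.ker_eq_bot.2 (algebraMap k F).injective)
      refine ⟨φ, ?_⟩
      have := LinearMap.congr_fun hφ 1
      simpa using this
    refine ⟨n, fun j => φ (c j), f, ?_⟩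
    intro i x
    have hx := h i (1 ⊗ₜ[k] x)
    have hx' := congrArg (fun z => TensorProduct.lid k _ (TensorProduct.map φ LinearMap.id z)) hx
    split_ifs at hx' with hi
    · simpa [hi, TensorProduct.smul_tmul', hφ] using hx'
    · simpa [hi, TensorProduct.smul_tmul', hφ] using hx'
  · rintro ⟨n, c, f, h⟩
    refine ⟨n, fun j => algebraMap k F (c j), f, ?_⟩
    intro i x
    induction x using TensorProduct.induction_on with
    | zero => simp
    | add x y hx hy =>
      simp only [map_add, smul_add, Finset.sum_add_distrib, hx, hy]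
      split_ifs <;> simp
    | tmul a x =>
      have hx := congrArg (fun y => a ⊗ₜ[k] y) (h i x)
      simp only [TensorProduct.tmul_sum] at hx
      have h2 : ∀ j, algebraMap k F (c j) • (R.actH i A (f j)).baseChange F (a ⊗ₜ[k] x) =
          a ⊗ₜ[k] (c j • R.actH i A (f j) x) := by
        intro j
        rw [LinearMap.baseChange_tmul, algebraMap_smul, TensorProduct.tmul_smul]
      simp only [h2, hx]
      split_ifs <;> simp

/-- Algebraicity of a projector of `H` forces torsion-freeness and algebraicity of the even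
projector of `T`. -/
theorem main_forward [IsNoetherianRing W] [IsLocalRing W] (hp : p ∈ IsLocalRing.maximalIdeal W)
    (hk : Function.Surjective (algebraMap W k)) (A : C)
    [∀ i, Module.Finite W ((R.T i).obj A)]
    (h : R.AlgH A 0) : R.TorsionFree A ∧ R.AlgT A 0 := by
  obtain ⟨n, c, f, h⟩ := h
  choose w hw using fun j => hk (c j)
  have h0 : ∑ j, algebraMap W k (w j) • ((R.H 0).map (f j)).hom =
      algebraMap W k 1 • LinearMap.id := by
    ext x
    have := h 0 x
    simpa [hw, actH, LinearMap.sum_apply] using this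
  have h1 : ∑ j, algebraMap W k (w j) • ((R.H 1).map (f j)).hom =
      algebraMap W k 0 • LinearMap.id := by
    ext x
    have := h 1 x
    simpa [hw, actH, LinearMap.sum_apply] using this
  have t1 : ∀ x : (R.T 1).obj A, p • x = 0 → x = 0 :=
    R.torsion_zero hp 0 A w f 1 0 (by simp) h0 h1
  have t0 : ∀ x : (R.T 0).obj A, p • x = 0 → x = 0 :=
    R.torsion_zero hp 1 A w f 0 1 (by simp) h1 h0
  refine ⟨?_, ?_⟩
  · intro i
    rcases zmod2_cases i with rfl | rfl
    · exact t0
    · exact t1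
  rw [algT_zero_iff]
  have e0 : ∀ x, ∃ y, (R.eta 0 A w f - 1) x = p • y := by
    intro x
    rw [← R.r_eq_zero]
    simp [r_eta, h0]
  have e1 : ∀ x, ∃ y, (R.eta 1 A w f) x = p • y := by
    intro x
    rw [← R.r_eq_zero]
    simp [r_eta, h1]
  obtain ⟨a, ha⟩ := div_p t0 _ e0
  obtain ⟨b, hb⟩ := div_p t1 _ e1
  refine idem_mem hp (R.algTSub A) (R.eta 0 A w f, R.eta 1 A w f) ?_
    ⟨a, by rw [← ha]; abel⟩ ⟨b, hb⟩
  rw [mem_algTSub]
  refine ⟨n, w, f, ?_⟩
  refine Prod.ext ?_ ?_
  · simp [eta, actT2, Prod.fst_sum]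
  · simp [eta, actT2, Prod.snd_sum]

theorem main_backward (A : C) (ht : R.TorsionFree A) (h : R.AlgT A 0) : R.AlgH A 0 := by
  obtain ⟨n, w, f, h⟩ := h
  refine ⟨n, fun j => algebraMap W k (w j), f, ?_⟩
  intro i y
  obtain ⟨x, rfl⟩ := R.r_surjective i A (ht (i + 1)) y
  have := congrArg (R.r i A) (h i x)
  rw [map_sum] at this
  simp only [r_smul, actT, r_map] at this
  simp only [actH]
  rw [this]
  split_ifs <;> simp

theorem algHSub_to_self (F : Subfield k) (A : C) (e : ZMod 2) (h : R.AlgHSub F A e) :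
    R.AlgH A e := by
  obtain ⟨n, c, f, _, h⟩ := h
  exact ⟨n, c, f, h⟩

end BocksteinPair

end Pool.Agent.H8.Bock
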