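import Pool.Agent.H8.Bock.Basic
import Pool.Agent.H8.Bock.Alg

open CategoryTheory

namespace Pool.Agent.H8.Bock

universe w v u

namespace BocksteinPair

variable {W k : Type w} [CommRing W] [Field k] [Algebra W k] {p : W}
  {C : Type u} [Category.{v} C] (R : BocksteinPair W k p C)

/-- The reduction map as an additive map. -/
noncomputable def r (i : ZMod 2) (A : C) : (R.T i).obj A →+ (R.H i).obj A :=
  ((R.red i).app A).hom.toAddMonoidHom

/-- The Bockstein map as an additive map. -/
noncomputable def b (i : ZMod 2) (A : C) : (R.H i).obj A →+ (R.T (i + 1)).obj A :=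
  ((R.bock i).app A).hom.toAddMonoidHom

theorem r_smul (i : ZMod 2) (A : C) (a : W) (x : (R.T i).obj A) :
    R.r i A (a • x) = algebraMap W k a • R.r i A x := by
  exact ((R.red i).app A).hom.map_smul a x

theorem b_smul (i : ZMod 2) (A : C) (a : W) (y : (R.H i).obj A) :
    R.b i A (algebraMap W k a • y) = a • R.b i A y := by
  exact ((R.bock i).app A).hom.map_smul a (y : (ModuleCat.restrictScalars (algebraMap W k)).obj ((R.H i).obj A))

theorem r_map (i : ZMod 2) {A : C} (f : A ⟶ A) (x : (R.T i).obj A) :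
    R.r i A (((R.T i).map f).hom x) = ((R.H i).map f).hom (R.r i A x) := by
  have h := (R.red i).naturality f
  exact congrArg (fun g => g.hom x) h

theorem b_map (i : ZMod 2) {A : C} (f : A ⟶ A) (y : (R.H i).obj A) :
    R.b i A (((R.H i).map f).hom y) = ((R.T (i + 1)).map f).hom (R.b i A y) := by
  have h := (R.bock i).naturality f
  exact congrArg (fun g => g.hom y) h

theorem r_eq_zero (i : ZMod 2) (A : C) (x : (R.T i).obj A) :
    R.r i A x = 0 ↔ ∃ y : (R.T i).obj A, x = p • y := by
  refine (R.exact_mul_red i A x).trans ?_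
  constructor
  · rintro ⟨y, hy⟩
    exact ⟨y, hy.symm⟩
  · rintro ⟨y, hy⟩
    exact ⟨y, hy.symm⟩

theorem b_eq_zero (i : ZMod 2) (A : C) (y : (R.H i).obj A) :
    R.b i A y = 0 ↔ ∃ x : (R.T i).obj A, y = R.r i A x := by
  refine (R.exact_red_bock i A y).trans ?_
  constructor
  · rintro ⟨x, hx⟩
    exact ⟨x, hx.symm⟩
  · rintro ⟨x, hx⟩
    exact ⟨x, hx.symm⟩

theorem p_smul_eq_zero (i : ZMod 2) (A : C) (z : (R.T (i + 1)).obj A) :
    p • z = 0 ↔ ∃ y : (R.H i).obj A, z = R.b i A y := by
  refine (R.exact_bock_mul i A z).trans ?_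
  constructor
  · rintro ⟨y, hy⟩
    exact ⟨y, hy.symm⟩
  · rintro ⟨y, hy⟩
    exact ⟨y, hy.symm⟩

/-- A `W`-linear combination of endomorphisms acting on `T i A`. -/
noncomputable def eta (i : ZMod 2) (A : C) {n : ℕ} (c : Fin n → W) (f : Fin n → (A ⟶ A)) :
    Module.End W ((R.T i).obj A) := ∑ j, c j • ((R.T i).map (f j)).hom

theorem r_eta (i : ZMod 2) (A : C) {n : ℕ} (c : Fin n → W) (f : Fin n → (A ⟶ A))
    (x : (R.T i).obj A) :
    R.r i A (R.eta i A c f x) =
      (∑ j, algebraMap W k (c j) • ((R.H i).map (f j)).hom) (R.r i A x) := by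
  simp [eta, LinearMap.sum_apply, r_smul, r_map]

theorem b_eta (i : ZMod 2) (A : C) {n : ℕ} (c : Fin n → W) (f : Fin n → (A ⟶ A))
    (y : (R.H i).obj A) :
    R.b i A ((∑ j, algebraMap W k (c j) • ((R.H i).map (f j)).hom) y) =
      R.eta (i + 1) A c f (R.b i A y) := by
  simp [eta, LinearMap.sum_apply, b_smul, b_map]

/-- A linear combination of correspondences acting on the two cohomologies by scalars that differ
by a unit kills the `p`-torsion. -/
theorem torsion_zero [IsNoetherianRing W] [IsLocalRing W] (hp : p ∈ IsLocalRing.maximalIdeal W)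
    (i : ZMod 2) (A : C) [Module.Finite W ((R.T (i + 1)).obj A)] {n : ℕ} (c : Fin n → W)
    (f : Fin n → (A ⟶ A)) (s t : W) (hst : IsUnit (s - t))
    (hs : ∑ j, algebraMap W k (c j) • ((R.H i).map (f j)).hom = algebraMap W k s • LinearMap.id)
    (ht : ∑ j, algebraMap W k (c j) • ((R.H (i + 1)).map (f j)).hom =
      algebraMap W k t • LinearMap.id)
    (z : (R.T (i + 1)).obj A) (hz : p • z = 0) : z = 0 := by
  obtain ⟨y, rfl⟩ := (R.p_smul_eq_zero i A z).1 hz
  set η := R.eta (i + 1) A c f with hη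
  have h1 : η (R.b i A y) = s • R.b i A y := by
    rw [hη, ← R.b_eta, hs]
    simp [b_smul]
  obtain ⟨θ, hθ⟩ : ∃ θ : Module.End W ((R.T (i + 1)).obj A), θ = η - t • 1 := ⟨_, rfl⟩
  have h2 : ∀ x : (R.T (i + 1)).obj A, ∃ x', θ x = p • x' := by
    intro x
    rw [← R.r_eq_zero, hθ]
    simp [hη, r_eta, ht, r_smul]
  have h3 : ∀ m : ℕ, ∀ x : (R.T (i + 1)).obj A, ∃ x', (θ ^ m) x = p ^ m • x' := by
    intro m
    induction m with
    | zero => intro x; exact ⟨x, by simp⟩
    | succ m ih =>
      intro x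
      obtain ⟨x', hx'⟩ := h2 x
      obtain ⟨x'', hx''⟩ := ih x'
      refine ⟨x'', ?_⟩
      rw [pow_succ, Module.End.mul_apply, hx', map_smul, hx'', smul_smul, pow_succ']
  have h4 : ∀ m : ℕ, (θ ^ m) (R.b i A y) = (s - t) ^ m • R.b i A y := by
    intro m
    induction m with
    | zero => simp
    | succ m ih =>
      rw [pow_succ', Module.End.mul_apply, ih, map_smul, hθ, LinearMap.sub_apply, h1]
      simp only [LinearMap.smul_apply, Module.End.one_apply]
      rw [← sub_smul, smul_smul, pow_succ]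
  refine eq_zero_of_forall_pow hp _ fun m => ?_
  obtain ⟨x', hx'⟩ := h3 m (R.b i A y)
  obtain ⟨u, hu⟩ := hst.pow m
  refine ⟨(↑u⁻¹ : W) • x', ?_⟩
  rw [smul_comm, ← hx', h4, ← hu, smul_smul, Units.inv_mul, one_smul]

theorem r_surjective (i : ZMod 2) (A : C)
    (h : ∀ z : (R.T (i + 1)).obj A, p • z = 0 → z = 0) (y : (R.H i).obj A) :
    ∃ x, y = R.r i A x := by
  rw [← R.b_eq_zero]
  exact h _ ((R.p_smul_eq_zero i A _).2 ⟨y, rfl⟩)

/-- Division by `p` of an endomorphism with values in the multiples of `p`. -/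
theorem div_p {M : Type*} [AddCommGroup M] [Module W M] (hM : ∀ x : M, p • x = 0 → x = 0)
    (g : Module.End W M) (hg : ∀ x, ∃ y, g x = p • y) : ∃ a : Module.End W M, g = p • a := by
  choose y hy using hg
  have inj : ∀ u v : M, p • u = p • v → u = v := by
    intro u v h
    rw [← sub_eq_zero] at h ⊢
    exact hM _ (by rw [smul_sub]; exact h)
  refine ⟨{ toFun := y, map_add' := ?_, map_smul' := ?_ }, ?_⟩
  · intro u v
    apply inj
    rw [← hy, map_add, hy, hy, smul_add]
  · intro a u
    apply inj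
    rw [← hy, map_smul, hy, RingHom.id_apply, smul_comm]
  · ext x
    exact hy x

/-- Pairs of `W`-linear endomorphisms of `T 0 A` and `T 1 A`. -/
abbrev EndT (A : C) : Type w :=
  Module.End W ((R.T 0).obj A) × Module.End W ((R.T 1).obj A)

/-- The action of an endomorphism `f` of `A` on the pair `T 0 A`, `T 1 A`. -/
noncomputable def actT2 (A : C) (f : A ⟶ A) : R.EndT A :=
  (((R.T 0).map f).hom, ((R.T 1).map f).hom)

/-- The action on `T A` as a monoid homomorphism. -/
noncomputable def actTHom (A : C) : End A →* R.EndT A where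
  toFun f := R.actT2 A f
  map_one' := by
    refine Prod.ext ?_ ?_
    · exact congrArg ModuleCat.Hom.hom ((R.T 0).map_id A)
    · exact congrArg ModuleCat.Hom.hom ((R.T 1).map_id A)
  map_mul' f g := by
    refine Prod.ext ?_ ?_
    · exact congrArg ModuleCat.Hom.hom ((R.T 0).map_comp g f)
    · exact congrArg ModuleCat.Hom.hom ((R.T 1).map_comp g f)

/-- The subalgebra of algebraic endomorphisms of `T A`. -/
noncomputable def algTSub (A : C) : Subalgebra W (R.EndT A) :=
  Algebra.adjoin W (Set.range (R.actT2 A))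

theorem mem_span_range_iff {K M ι : Type*} [Semiring K] [AddCommMonoid M] [Module K M] (F : ι → M)
    (e : M) : e ∈ Submodule.span K (Set.range F) ↔
      ∃ (n : ℕ) (c : Fin n → K) (f : Fin n → ι), e = ∑ j, c j • F (f j) := by
  rw [Submodule.mem_span_set']
  constructor
  · rintro ⟨n, c, g, rfl⟩
    have : ∀ j, ∃ f, F f = (g j : _) := fun j => (g j).2
    choose f hf using this
    exact ⟨n, c, f, by simp [hf]⟩
  · rintro ⟨n, c, f, rfl⟩
    exact ⟨n, c, fun j => ⟨F (f j), ⟨f j, rfl⟩⟩, rfl⟩

theorem mem_algTSub (A : C) (e : R.EndT A) : e ∈ R.algTSub A ↔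
    ∃ (n : ℕ) (c : Fin n → W) (f : Fin n → (A ⟶ A)), e = ∑ j, c j • R.actT2 A (f j) := by
  have h : Subalgebra.toSubmodule (R.algTSub A) = Submodule.span W (Set.range (R.actT2 A)) := by
    rw [algTSub, Algebra.adjoin_eq_span]
    congr 1
    have : Set.range (R.actT2 A) = (MonoidHom.mrange (R.actTHom A) : Set _) := by
      ext x
      simp only [Set.mem_range]
      rfl
    rw [this, Submonoid.closure_eq]
  rw [← Subalgebra.mem_toSubmodule, h]
  exact mem_span_range_iff (K := W) (R.actT2 A) e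

theorem zmod2_cases (i : ZMod 2) : i = 0 ∨ i = 1 := by
  revert i
  decide

theorem algT_zero_iff (A : C) : R.AlgT A 0 ↔ ((1, 0) : R.EndT A) ∈ R.algTSub A := by
  rw [mem_algTSub]
  constructor
  · rintro ⟨n, c, f, h⟩
    refine ⟨n, c, f, ?_⟩
    refine Prod.ext ?_ ?_
    · ext x
      have := h 0 x
      simpa [actT, actT2, Prod.fst_sum, LinearMap.sum_apply] using this.symm
    · ext x
      have := h 1 x
      simpa [actT, actT2, Prod.snd_sum, LinearMap.sum_apply] using this.symm
  · rintro ⟨n, c, f, h⟩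
    refine ⟨n, c, f, ?_⟩
    intro i
    rcases zmod2_cases i with rfl | rfl
    · intro x
      have := LinearMap.congr_fun (congrArg Prod.fst h) x
      simpa [actT, actT2, Prod.fst_sum, LinearMap.sum_apply] using this.symm
    · intro x
      have := LinearMap.congr_fun (congrArg Prod.snd h) x
      simpa [actT, actT2, Prod.snd_sum, LinearMap.sum_apply] using this.symm

end BocksteinPair

end Pool.Agent.H8.Bock
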